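import Pool.Agent.W767.HL.Main

set_option autoImplicit false

/-!
# MP_5bfbcb_an, Q2: interface

Definitions and the statements (`S_...`) of all the pieces.  Every piece is a term of the
corresponding proposition, possibly from other `S_...` as hypotheses.

Notation of `Pool.Agent.W767.HL`: `Ci = AddCircle 1`, `mu` the Haar probability, `ze t = e^(2 pi i t)`,
`P w t` the Poisson kernel of the unit disc, `ev f z` the value of a Laurent polynomial.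
-/

namespace Pool.Agent.Run7.h104.Q2

open MeasureTheory AddCircle Complex Set Filter Topology Pool.Agent.W767.HL

noncomputable section

/-- The depth of a point (`dep z = log (1 / |z|)`). -/
def dep (z : ℂ) : ℝ := -Real.log ‖z‖

/-- The Poisson integral. -/
def PI (φ : Ci → ℝ) (z : ℂ) : ℝ := ∫ θ, P z θ * φ θ ∂mu

/-- The point of depth `y` above `θ`. -/
def pt (y : ℝ) (θ : Ci) : ℂ := (Real.exp (-y) : ℂ) * ze θ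

/-- The point `w` moved towards the circle: `dep (up y w) = dep w - y`. -/
def up (y : ℝ) (w : ℂ) : ℂ := (Real.exp y : ℂ) * w

/-- `min (S + Re h - log |F|) D'`, with value `D'` at the zeros of `F`. -/
def Yc (S D' : ℝ) (F h : ℂ → ℂ) (z : ℂ) : ℝ :=
  S + (h z).re - Real.log (max ‖F z‖ (Real.exp (S + (h z).re - D')))

/-! ## Part I: half-lacunary Laurent polynomials -/

/-- A Laurent polynomial whose negative frequencies are among `- m 1, - m 2, ...`. -/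
structure HLG (L : ℕ) (η : ℝ) (m : ℕ → ℕ) (J : ℕ) (G : ℤ →₀ ℂ) : Prop where
  hL : 0 < L
  hη : 0 < η
  hη1 : η ≤ 1
  hm : StrictMono m
  hm0 : m 0 = 0
  hgap : ∀ j, L ≤ j → m (j - L) + m (j - 1) ≤ m j
  hsep : ∀ j, 1 ≤ j → η * m j + m (j - 1) ≤ m j
  hJ : ∀ n : ℤ, n < -(m J : ℤ) → G n = 0
  hG2 : ∀ j, 1 ≤ j → ∀ n : ℤ, -(m j : ℤ) < n → n < -(m (j - 1) : ℤ) → G n = 0
  hn : ∫ θ, ‖ev G (ze θ)‖ ^ 2 ∂mu ≤ 1

/-- Square of the `l^2` norm of the negative coefficients from the `j`th on. -/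
def rho2 (m : ℕ → ℕ) (J : ℕ) (G : ℤ →₀ ℂ) (j : ℕ) : ℝ :=
  ∑ i ∈ Finset.Icc j J, ‖G (-(m i : ℤ))‖ ^ 2

/-- The last index `j` with `|(b_i)_{i >= j}|_2 >= exp (- 2 ^ a D0)`. -/
def KK (m : ℕ → ℕ) (J : ℕ) (G : ℤ →₀ ℂ) (D0 : ℝ) (a : ℕ) : ℕ :=
  Nat.findGreatest (fun j => Real.exp (-(2 * (2 ^ a * D0))) ≤ rho2 m J G j) J

/-- The depths `ell i`. -/
def ellf (κ : ℝ) (m : ℕ → ℕ) (J : ℕ) (G : ℤ →₀ ℂ) (D0 : ℝ) : ℕ → ℝ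
  | 0 => min 1 (D0 / (κ * m (KK m J G D0 0)))
  | i + 1 => min (ellf κ m J G D0 i) (2 ^ (i + 1) * D0 / (κ * m (KK m J G D0 (i + 1))))

/-- Truncation: the negative frequencies below `- m K` are removed. -/
def cut (m : ℕ → ℕ) (K : ℕ) (G : ℤ →₀ ℂ) : ℤ →₀ ℂ := G.filter fun n => -(m K : ℤ) ≤ n

/-- The truncated functions. -/
def ff (m : ℕ → ℕ) (J : ℕ) (G : ℤ →₀ ℂ) (D0 : ℝ) (i : ℕ) : ℤ →₀ ℂ := cut m (KK m J G D0 i) G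

/-- The abstract output of Part I.  `κ1, A0, c0` depend only on `L, η`; `κ7` is arbitrary. -/
structure Sys (κ1 κ7 A0 c0 D0 : ℝ) (N : ℕ) (G : ℤ →₀ ℂ) (f : ℕ → (ℤ →₀ ℂ)) (ell : ℕ → ℝ) :
    Prop where
  ell_pos : ∀ i, 0 < ell i
  ell_anti : Antitone ell
  ell_le : ∀ i, ell i ≤ 1
  fN : f N = G
  norm : ∫ θ, ‖ev G (ze θ)‖ ^ 2 ∂mu ≤ 1
  nice : ∀ i ≤ N, ∀ z : ℂ, z ≠ 0 → ‖z‖ < 1 → dep z ≤ κ1 * ell i →
    ‖ev (f i) z‖ ≤ PI (fun θ => ‖ev G (ze θ)‖) z + PI (fun θ => ‖ev (G - f i) (ze θ)‖) z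
      + Real.exp (D0 / 3)
  mism : ∀ i < N, ∀ z : ℂ, z ≠ 0 → ‖z‖ < 1 → dep z ≤ κ1 * ell (i + 1) →
    ‖ev (f (i + 1)) z - ev (f i) z‖ ≤ PI (fun θ => ‖ev (G - f i) (ze θ)‖) z
      + PI (fun θ => ‖ev (G - f (i + 1)) (ze θ)‖) z + Real.exp (-(2 ^ i * D0 / 3))
  tail : ∀ i ≤ N, ∀ z : ℂ, z ≠ 0 → ‖z‖ < 1 → κ7 * ell i ≤ dep z →
    PI (fun θ => ‖ev (G - f i) (ze θ)‖ ^ 2) z ≤ Real.exp (-(3 / 2 * (2 ^ i * D0)))
  ri : ∀ i k, i < k → k ≤ N → ∀ y : ℝ, 0 < y → y ≤ κ1 * ell k → ∀ w : ℂ, w ≠ 0 → ‖w‖ < 1 →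
    ell i ≤ dep w → PI (fun θ => ‖ev G (ze θ)‖) w ≤ Real.exp (D0 / 8) →
    PI (fun θ => if ‖ev (f k) (pt y θ)‖ ≤ Real.exp (-(A0 * (2 ^ i * D0))) then 1 else 0) (up y w)
      ≤ 1 - c0

/-- PIECE RI0: the rotation inequality of `HL.trunc_ineq` with the `l^2` norm of the negative
coefficients with index in `(j0, K]` in place of one coefficient.
Proof: as `HL.alg`/`HL.trunc_ineq`; add to the invariant that
`C ^ 2 * sum (j < k <= K) |G (- m k)| ^ 2 <= sum (i < L) t i ^ 2` (`C` is nonincreasing, and the step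
adds `C ^ 2 |a| ^ 2` to one `t i ^ 2`); as `C * prod t = s ^ L`, this gives
`s ^ L * a <= sqrt L * t ^ (L + 1)` for the largest `t`. -/
def S_RI0 : Prop :=
  ∀ {L : ℕ} (_ : 0 < L) {m : ℕ → ℕ} (_ : StrictMono m)
    (_ : ∀ j, L ≤ j → m (j - L) + m (j - 1) ≤ m j) {M K j0 : ℕ} (_ : j0 < K)
    (_ : ∀ j, j0 < j → M + m (j - 1) ≤ m j) {G : ℤ →₀ ℂ}
    (_ : ∀ n : ℤ, n < -(m K : ℤ) → G n = 0)
    (_ : ∀ j, 1 ≤ j → ∀ n : ℤ, -(m j : ℤ) < n → n < -(m (j - 1) : ℤ) → G n = 0)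
    {w : ℂ} (_ : ‖w‖ < 1) (_ : w ≠ 0) {B : ℝ}
    (_ : ∫ θ, P w θ * ‖ev G (ze θ)‖ ∂mu ≤ B) (_ : ∫ θ, P 0 θ * ‖ev G (ze θ)‖ ∂mu ≤ B)
    {s : ℝ} (_ : 0 < s) (_ : s ≤ 1) (_ : ‖w‖ ^ M * (2 * (L + B)) ≤ s / 2)
    {a : ℝ} (_ : 0 < a) (_ : a ^ 2 ≤ ∑ j ∈ Finset.Icc (j0 + 1) K, ‖G (-(m j : ℤ))‖ ^ 2),
    2 * ((L * Real.log s + Real.log a - Real.log L) / (L + 1) - Real.log 2)
      ≤ La w (L * s ^ 2) (fun θ => ev G (ze θ))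

/-- PIECE NICE (fields `nice` and `mism` of `Sys`), with `κ1 = κ / 4`.
Proof.  With `b j = G (- m j)`, `t i = G - f i` and `K i = KK i`, for `0 < |z| < 1`
`ev (f i) z = PI[G] z - PI[t i] z + sum (1 <= j <= K i) b j * (z ^ (- m j) - conj z ^ (m j))`
(complex Poisson integrals) and `|z ^ (-m) - conj z ^ m| = 2 sinh (m * dep z)
<= 2 m (dep z) exp (m * dep z)`.  `|b j| <= 1`.  If `j <= K a` then `m j <= m (K a)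
<= 2 ^ a D0 / (κ * ell i)` for `a <= i`, so `m j * dep z <= 2 ^ a D0 / 4`;  if `K (a-1) < j <= K a`
then `|b j| <= exp (- 2 ^ (a-1) D0)`.  `m j` grows geometrically (`hsep`), so the sum over a block
is at most `C_η *` (its last `m j * dep z * exp (m j * dep z)`). -/
def S_NICE : Prop :=
  ∀ (L : ℕ) (η κ : ℝ), 0 < κ → κ ≤ 1 → 0 < η → ∃ Dm : ℝ, ∀ D0 : ℝ, Dm ≤ D0 →
    ∀ (m : ℕ → ℕ) (J : ℕ) (G : ℤ →₀ ℂ), HLG L η m J G → 1 ≤ KK m J G D0 0 →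
    (∀ i, ∀ z : ℂ, z ≠ 0 → ‖z‖ < 1 → dep z ≤ κ / 4 * ellf κ m J G D0 i →
      ‖ev (ff m J G D0 i) z‖ ≤ PI (fun θ => ‖ev G (ze θ)‖) z
        + PI (fun θ => ‖ev (G - ff m J G D0 i) (ze θ)‖) z + Real.exp (D0 / 3)) ∧
    (∀ i, ∀ z : ℂ, z ≠ 0 → ‖z‖ < 1 → dep z ≤ κ / 4 * ellf κ m J G D0 (i + 1) →
      ‖ev (ff m J G D0 (i + 1)) z - ev (ff m J G D0 i) z‖
        ≤ PI (fun θ => ‖ev (G - ff m J G D0 i) (ze θ)‖) z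
          + PI (fun θ => ‖ev (G - ff m J G D0 (i + 1)) (ze θ)‖) z
          + Real.exp (-(2 ^ i * D0 / 3)))

/-- PIECE TAIL (field `tail` of `Sys`).
Proof.  `t = G - f i` has only the frequencies `- m j`, `j > K i`, with `l^2` norm
`< exp (- 2 ^ i D0)`, and
`PI |t| ^ 2 z = sum (j, k) b j conj (b k) |z| ^ |m j - m k| e(..)`, so it is at most
`|b|_2 ^ 2 + 2 sum (k < j) |b j| |b k| exp (- η (m j) (dep z)) <= C |b|_2 ^ 2` because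
`m j * dep z >= κ7 * m j * ell i >= κ7 / κ * D0` if `ell i < 1` (`ell i = 2 ^ a D0 / (κ m (K a))`
for some `a <= i` and `m j > m (K a)`) and `>= κ7 * Cm` if `ell i = 1`. -/
def S_TAIL : Prop :=
  ∀ (L : ℕ) (η κ κ7 : ℝ), 0 < κ → κ ≤ 1 → 0 < η → 0 < κ7 → ∃ (Dm : ℝ) (Cm : ℕ), ∀ D0 : ℝ,
    Dm ≤ D0 → ∀ (m : ℕ → ℕ) (J : ℕ) (G : ℤ →₀ ℂ), HLG L η m J G → 1 ≤ KK m J G D0 0 →
    Cm ≤ m (KK m J G D0 0) →
    ∀ i, ∀ z : ℂ, z ≠ 0 → ‖z‖ < 1 → κ7 * ellf κ m J G D0 i ≤ dep z →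
      PI (fun θ => ‖ev (G - ff m J G D0 i) (ze θ)‖ ^ 2) z ≤ Real.exp (-(3 / 2 * (2 ^ i * D0)))

/-- PIECE RI1 (field `ri` of `Sys`), from `S_RI0`, `S_NICE`, `S_TAIL`.
Constants: `A0 = 4 (L + 1)`, `κ` small compared with `η / A0`, `c0` small (like `1 / (20 (L + 1))`).
Proof.  First let `ell i < 1`: `ell i = 2 ^ a D0 / (κ m (K a))` for some `a <= i`.  Apply `S_RI0` to
`G' = ` the Laurent polynomial `ζ ↦ ev (f k) (exp (-y) ζ)` (coefficients `G n * exp (- y n)`, the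
negative ones are larger than those of `f k`), at the point `up y w` (depth `>= ell i / 2`),
`j0 + 1 = K a`, `K = K k`, `s = exp (- A0 2 ^ a D0)`, `M = ⌊η m (K a)⌋`, `a^2 = exp (-2 2^a D0) / 2`
(`rho2 (K a) - rho2 (K k + 1)`), `B = exp (D0 / 2)` (by `S_NICE` at the points `pt y θ`, harmonicity
of `PI |G|`, `PI |t k|`, and `S_TAIL` with `κ7 = 1`).  The right side `La` is at most
`2 log s * PI (1_E) + C + 2 log (2 + B)`, `E = {|G'| <= s}`.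
If `ell i = 1`, apply the same to a point `w0` close to `0` and use
`P (up y w) >= c P w0` for `dep (up y w) >= 1/2`. -/
def S_RI1 : Prop :=
  ∀ (L : ℕ) (η : ℝ), 0 < L → 0 < η → η ≤ 1 → ∃ κ A0 c0 : ℝ, 0 < κ ∧ κ ≤ 1 ∧ 1 ≤ A0 ∧ 0 < c0 ∧
    c0 ≤ 1 ∧ ∃ (Dm : ℝ) (Cm : ℕ), ∀ D0 : ℝ, Dm ≤ D0 →
    ∀ (m : ℕ → ℕ) (J : ℕ) (G : ℤ →₀ ℂ), HLG L η m J G → 1 ≤ KK m J G D0 0 →
    Cm ≤ m (KK m J G D0 0) → ∀ i k, i < k → ∀ y : ℝ, 0 < y →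
    y ≤ κ / 4 * ellf κ m J G D0 k → ∀ w : ℂ, w ≠ 0 → ‖w‖ < 1 → ellf κ m J G D0 i ≤ dep w →
    PI (fun θ => ‖ev G (ze θ)‖) w ≤ Real.exp (D0 / 8) →
    PI (fun θ => if ‖ev (ff m J G D0 k) (pt y θ)‖ ≤ Real.exp (-(A0 * (2 ^ i * D0)))
      then 1 else 0) (up y w) ≤ 1 - c0

/-- PIECE PART1: the construction of `Sys`, from `S_NICE`, `S_TAIL`, `S_RI1` (bookkeeping:
`KK 0 >= j2`, positivity and monotonicity of `ellf`, `ff N = G` for large `N`). -/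
def S_PART1 : Prop :=
  ∀ (L : ℕ) (η : ℝ), 0 < L → 0 < η → η ≤ 1 → ∃ κ1 A0 c0 : ℝ, 0 < κ1 ∧ κ1 ≤ 1 / 4 ∧ 1 ≤ A0 ∧
    0 < c0 ∧ c0 ≤ 1 ∧ ∀ κ7 : ℝ, 0 < κ7 → ∃ (Dm : ℝ) (Cm : ℕ), ∀ D0 : ℝ, Dm ≤ D0 →
    ∀ (m : ℕ → ℕ) (J : ℕ) (G : ℤ →₀ ℂ), HLG L η m J G → ∀ j2, 1 ≤ j2 → j2 ≤ J → Cm ≤ m j2 →
    Real.exp (-D0) ≤ ‖G (-(m j2 : ℤ))‖ → ∀ Nmin : ℕ, ∃ N, Nmin ≤ N ∧
    ∃ (f : ℕ → (ℤ →₀ ℂ)) (ell : ℕ → ℝ), Sys κ1 κ7 A0 c0 D0 N G f ell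

/-! ## Part II: potential theory -/

/-- PIECE IM: no interior maximum. -/
def S_IM : Prop :=
  ∀ (F H : ℂ → ℂ) (β a c : ℝ) (z0 : ℂ), z0 ≠ 0 → AnalyticAt ℂ F z0 → F z0 ≠ 0 →
    Differentiable ℂ H → 0 < c →
    ¬ ∀ᶠ z in 𝓝 z0, β * Real.log ‖F z‖ + (H z).re + a * Real.log ‖z‖ + c * ‖z‖ ^ 2
      ≤ β * Real.log ‖F z0‖ + (H z0).re + a * Real.log ‖z0‖ + c * ‖z0‖ ^ 2

/-- PIECE APX: one-sided approximation of continuous functions by real parts of entire functions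
(see the proof of `HL.jensen`). -/
def S_APX : Prop :=
  ∀ φ : Ci → ℝ, Continuous φ → ∀ ε : ℝ, 0 < ε → ∃ H : ℂ → ℂ, Differentiable ℂ H ∧
    ∀ θ, φ θ - ε ≤ (H (ze θ)).re ∧ (H (ze θ)).re ≤ φ θ

/-- The hypotheses of the potential theoretic lemma `POT`. -/
structure PotData (k N : ℕ) (D0 S β U : ℝ) (y : ℕ → ℝ) (F : ℕ → ℂ → ℂ) (h r W : ℂ → ℂ) :
    Prop where
  hkN : k ≤ N
  hy : ∀ i, 0 < y i
  hanti : Antitone y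
  hF : ∀ i, ∀ z : ℂ, z ≠ 0 → AnalyticAt ℂ (F i) z
  hh : Differentiable ℂ h
  hr : Differentiable ℂ r
  hW : Differentiable ℂ W
  hh0 : ∀ z : ℂ, ‖z‖ ≤ 1 → 0 ≤ (h z).re
  hr0 : ∀ z : ℂ, ‖z‖ ≤ 1 → 0 ≤ (r z).re
  hβ : 0 < β
  hS : 0 ≤ S
  hU : 0 ≤ U
  hD0 : 100 ≤ D0
  pos : ∀ i, k ≤ i → i ≤ N → ∀ z : ℂ, z ≠ 0 → ‖z‖ ≤ 1 → dep z ≤ y i →
    ‖F i z‖ ≤ Real.exp (S + (h z).re)
  W1 : ∀ z : ℂ, ‖z‖ ≤ 1 → (W z).re ≤ 1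
  bad : ∀ i, k ≤ i → i < N → ∀ z : ℂ, z ≠ 0 → ‖z‖ ≤ 1 → y (i + 1) / 4 ≤ dep z →
    (W z).re ≤ β * (2 ^ i * D0 / 8)
  top : ∀ z : ℂ, z ≠ 0 → ‖z‖ ≤ 1 → y k ≤ dep z → (W z).re ≤ U
  bot : ∀ z : ℂ, ‖z‖ = 1 → 0 < (W z).re → F N z ≠ 0 → 1 ≤ β * (-Real.log ‖F N z‖)
  mis : ∀ i, k ≤ i → i < N → ∀ z : ℂ, z ≠ 0 → ‖z‖ ≤ 1 → y (i + 1) / 4 ≤ dep z →
    dep z ≤ y (i + 1) → (r z).re < 1 → ‖F (i + 1) z - F i z‖ ≤ 3 * Real.exp (-(2 ^ i * D0 / 3))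

/-- PIECE POT.  Proof (maximum principle).  Put `a_i (y) = U y / y_k + δ +
sum (k < j <= i) s_j (y - y_j / 2)`, `s_j = 8 β exp (- 2^(j-1) D0 / 8) / y_j`, so that
`a_i (y) >= U y / y_k`, and for `c > 0`
(`δ` = the sum of the `s_j y_j / 2`, at most `5 β exp (- 2^k D0 / 8)`)
`E_i z = ‖F i z‖ ^ β * exp (Re W z - β S - β Re h z - Re r z - a_i (dep z) + c |z| ^ 2)`
on the compact `region_i = {y_(i+1) / 4 <= dep z <= y_i}` (`0 <= dep z <= y_N` for `i = N`).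
Let `(i, z0)` maximise `E` over all pairs, `k <= i <= N`, and suppose `E_i z0 > exp c`.  Then
`F i z0 ≠ 0` and `Re W > β (S + Re h - log |F i|) + Re r + a_i + c (1 - |z0|^2)` at `z0`.
* `dep z0 = y_k`: contradiction with `top` (and `pos`).
* `Re r z0 >= 1`: contradiction with `W1`.
* `i < N` and `S + Re h - log |F i| >= 2^i D0 / 8`: contradiction with `bad`.
* `i = N` and `|z0| = 1`: contradiction with `bot`.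
* `dep z0 = y_i < y_k`: if `S + Re h - log |F i| >= 2^(i-1) D0 / 8`, contradiction with `bad` for
  `i - 1`; otherwise `z0` is in `region_(i-1)` and `E_(i-1) z0 > E_i z0` by `mis`.
* `dep z0 = y_(i+1) / 4`: `E_(i+1) z0 > E_i z0` by `mis`.
* otherwise `z0` is interior to `region_i`: contradiction with `S_IM`.
Finally let `c -> 0`. -/
def S_POT : Prop :=
  ∀ (k N : ℕ) (D0 S β U : ℝ) (y : ℕ → ℝ) (F : ℕ → ℂ → ℂ) (h r W : ℂ → ℂ),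
    PotData k N D0 S β U y F h r W →
    ∀ i, k ≤ i → i ≤ N → ∀ z : ℂ, z ≠ 0 → ‖z‖ ≤ 1 → dep z ≤ y i →
      (i < N → y (i + 1) / 4 ≤ dep z) → F i z ≠ 0 →
      (W z).re ≤ U * (dep z / y k) + β * (S + (h z).re - Real.log ‖F i z‖) + (r z).re
        + 20 * β * Real.exp (-(2 ^ k * D0 / 8))

/-- Hypotheses of the local lemma and of the chain lemma: `F` is analytic off `0`,
`log |F| <= S + Re h` on `yb <= dep z <= 4 yb`. -/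
structure LocData (yb S : ℝ) (F h : ℂ → ℂ) : Prop where
  hyb : 0 < yb
  hyb1 : yb ≤ 1 / 16
  hF : ∀ z : ℂ, z ≠ 0 → AnalyticAt ℂ F z
  hh : Differentiable ℂ h
  pos : ∀ z : ℂ, z ≠ 0 → yb ≤ dep z → dep z ≤ 4 * yb → ‖F z‖ ≤ Real.exp (S + (h z).re)

/-- PIECE LOC.  Proof.  Put `a = yg - y'`, `b = 4 yb - y'` (`2 yb <= b <= 3 yb`),
`φ = ` the product of `Yc (pt y' .)` (which lies between `0` and `S + Re h - log |F|`) and a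
continuous cutoff, `1` on `|t - tg| <= yb / 8`, `0` off `|t - tg| <= yb / 7`.  Let `H` be entire with
`φ - ε <= Re H (pt y' .) <= φ` (`S_APX`, rescaled).  By the Poisson formula for `H` in the disc of
depth `y'`: for `dep z = 4 yb` we have `Re H z <= sup P * ∫ φ = coth (b / 2) ∫ φ`.
Maximum principle (`S_IM`) on `y' <= dep z <= 4 yb`:
`Re H z - (dep z - y') / b * coth (b / 2) ∫ φ <= S + Re h z - log |F z|`.  At `z = pt yg tg`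
`Re H z >= ∫ φ * P (pt a (tg)) - ε` and the kernel is
`sinh a / (cosh a - cos (2 pi (t - tg))) >= 1.1 a / yb^2` on the support of `φ`, while
`a / b * coth (b / 2) <= 0.51 a / yb^2`. -/
def S_LOC : Prop :=
  ∀ (yb S D' : ℝ) (F h : ℂ → ℂ), LocData yb S F h → 0 < D' →
    ∀ (y' yg tg : ℝ), yb ≤ y' → y' < yg → yg ≤ 2 * yb → F (pt yg (tg : Ci)) ≠ 0 →
    ∫ t in (tg - yb / 8)..(tg + yb / 8), Yc S D' F h (pt y' (t : Ci))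
      ≤ 4 * (yb ^ 2 / (yg - y')) *
        (S + (h (pt yg (tg : Ci))).re - Real.log ‖F (pt yg (tg : Ci))‖)

/-- PIECE CHAIN, from `S_LOC`.  Proof.  Lines of depth `y_n = yb (1 + 2^(-n))`.  By induction on `n`:
if `|t0 - tg| <= n yb / 16` then there is `t'` with `|t' - t0| <= yb / 32` and either
`S + Re h - log |F| <= C_n Y0` at `pt y_n t'` (with `F ≠ 0` there) or `D' <= C_n Y0`.  Step: `S_LOC`
at `t'` with `yg = y_n`, `y' = y_(n+1)` (difference `yb / 2^(n+1)`) bounds the integral of `Yc` over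
`[t1 - yb / 32, t1 + yb / 32]`, `|t1 - t0| <= yb / 16`.  Last step with `y' = yb`. -/
def S_CHAIN : Prop :=
  ∀ n : ℕ, ∃ C : ℝ, 1 ≤ C ∧ ∀ (yb S D' : ℝ) (F h : ℂ → ℂ), LocData yb S F h → 0 < D' →
    ∀ (tg t0 Y0 : ℝ), 0 < Y0 → F (pt (2 * yb) (tg : Ci)) ≠ 0 →
    S + (h (pt (2 * yb) (tg : Ci))).re - Real.log ‖F (pt (2 * yb) (tg : Ci))‖ ≤ Y0 →
    |t0 - tg| ≤ n * (yb / 16) →
    ∫ t in (t0 - yb / 16)..(t0 + yb / 16), Yc S D' F h (pt yb (t : Ci)) ≤ C * yb * Y0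

/-- PIECE LINT, from `S_CHAIN`.  (Integral bound in the steep range.)
Proof.  Let `φ t = Yc (pt yb t)` (between `0` and `D'`), `v = up yb zs` (depth `>= 3 yb`).
1. Harnack: `P v t' <= C P v t` for `|t - t'| <= yb / 16`, so
`PI φ v <= C ∫ P v t * ((8 / yb) ∫ (|s| <= yb / 16) φ (t + s) ds) dt`.
2. Let `w_t = pt (ell i) t`.  If `PI |G| (w_t) <= exp (D0 / 8)`, then by `Sys.ri` with `y = 2 yb`
the set where `|f k (pt (2 yb) .)| > exp (- A0 2^i D0)` has `P (up (2 yb) w_t)`-measure `>= c0`;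
the part `|t' - t| > R ell i` of the circle has measure `<= c0 / 4` for `R` large, and
`{Re h (pt (2 yb) .) > 4 / c0}` has measure `<= c0 / 4` (as `Re h (w_t) <= 1`).  So there is a good
`tg`, `|tg - t| <= R ell i = (R / κ6) yb`, and `S_CHAIN` bounds the inner integral by
`C yb (S + 4 / c0 + A0 2^i D0)`.
3. The other `t` have `P v`-measure `<= exp (- D0 / 8) ∫ P v t PI |G| (w_t) dt
= exp (- D0 / 8) PI |G| (exp (- ell i) v)` and `P (c z) <= C P z` with `C` depending on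
`ell i / yb`, so this is `<= C exp (- D0 / 8 + D0 / 32) <= exp (- D0 / 16)`. -/
def S_LINT : Prop :=
  ∀ κ1 A0 c0 κ6 : ℝ, 0 < κ1 → κ1 ≤ 1 / 4 → 1 ≤ A0 → 0 < c0 → c0 ≤ 1 → 0 < κ6 → κ6 ≤ 1 / 16 →
    ∃ Cd Dm : ℝ, 1 ≤ Cd ∧ ∀ (κ7 D0 : ℝ) (N : ℕ) (G : ℤ →₀ ℂ) (f : ℕ → (ℤ →₀ ℂ)) (ell : ℕ → ℝ),
    Dm ≤ D0 → Sys κ1 κ7 A0 c0 D0 N G f ell →
    ∀ (i k : ℕ), i < k → k ≤ N → 4 * (κ6 * ell i) ≤ κ1 * ell k →
    ∀ h : ℂ → ℂ, Differentiable ℂ h → (∀ z : ℂ, ‖z‖ ≤ 1 → 0 ≤ (h z).re) →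
    (∀ z : ℂ, z ≠ 0 → ‖z‖ ≤ 1 → dep z ≤ κ1 * ell k →
      ‖ev (f k) z‖ ≤ Real.exp (D0 / 3 + (h z).re)) →
    (∀ w : ℂ, w ≠ 0 → ‖w‖ < 1 → ell i ≤ dep w →
      PI (fun θ => ‖ev G (ze θ)‖) w ≤ Real.exp (D0 / 8) → (h w).re ≤ 1) →
    ∀ D' : ℝ, 0 < D' → ∀ zs : ℂ, zs ≠ 0 → ‖zs‖ < 1 → 4 * (κ6 * ell i) ≤ dep zs →
    PI (fun θ => ‖ev G (ze θ)‖) zs ≤ Real.exp (D0 / 32) →
    PI (fun θ => Yc (D0 / 3) D' (fun z => ev (f k) z) h (pt (κ6 * ell i) θ)) (up (κ6 * ell i) zs)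
      ≤ Cd * (2 ^ i * D0) + D' * Real.exp (-(D0 / 16))

/-- PIECE PART2: from `S_APX`, `S_POT`, `S_LINT`. -/
def S_PART2 : Prop :=
  ∀ κ1 A0 c0 : ℝ, 0 < κ1 → κ1 ≤ 1 / 4 → 1 ≤ A0 → 0 < c0 → c0 ≤ 1 →
    ∃ κ7 p C : ℝ, 0 < κ7 ∧ 0 < p ∧ 1 ≤ C ∧ ∀ (D0 σ : ℝ), C ≤ D0 → C * D0 ≤ σ → σ ≤ D0 ^ 2 →
    ∀ (N : ℕ) (G : ℤ →₀ ℂ) (f : ℕ → (ℤ →₀ ℂ)) (ell : ℕ → ℝ), C + σ ≤ N →
    Sys κ1 κ7 A0 c0 D0 N G f ell →
    mu.real {θ | ‖ev G (ze θ)‖ ≤ Real.exp (-σ)} ≤ C * (D0 / σ) ^ p + Real.exp (-(D0 / 64))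

/-! ## Part III: conclusion -/

/-- PIECE UNIF: the uniform estimate, from `S_PART1` and `S_PART2`, with `D0 = sqrt σ`. -/
def S_UNIF : Prop :=
  ∀ (L : ℕ) (η : ℝ), 0 < L → 0 < η → η ≤ 1 → ∃ (p C : ℝ) (Cm : ℕ), 0 < p ∧ 1 ≤ C ∧
    ∀ (m : ℕ → ℕ) (J : ℕ) (G : ℤ →₀ ℂ), HLG L η m J G → ∀ j2, 1 ≤ j2 → j2 ≤ J → Cm ≤ m j2 →
    ∀ σ : ℝ, C ≤ σ → Real.exp (-Real.sqrt σ) ≤ ‖G (-(m j2 : ℤ))‖ →
    mu.real {θ | ‖ev G (ze θ)‖ ≤ Real.exp (-σ)} ≤ C * σ ^ (-p)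

/-- PIECE LIM: passage to the limit, from `S_UNIF`: if `g ∈ L^2` has negative frequencies only among
`- m j`, infinitely many of them with nonzero coefficient, then the distribution bound holds.
(Normalise by `|g|_2`, truncate as in `HL.lim_ineq`; truncations converge to `g` in `L^1`, hence in
measure.) -/
def S_LIM : Prop :=
  ∀ (L : ℕ) (η : ℝ) (m : ℕ → ℕ), 0 < L → 0 < η → η ≤ 1 → StrictMono m → m 0 = 0 →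
    (∀ j, L ≤ j → m (j - L) + m (j - 1) ≤ m j) → (∀ j, 1 ≤ j → η * m j + m (j - 1) ≤ m j) →
    ∀ g : Lp ℂ 2 mu,
    (∀ j, 1 ≤ j → ∀ n : ℤ, -(m j : ℤ) < n → n < -(m (j - 1) : ℤ) → fourierCoeff g n = 0) →
    (∀ M : ℤ, ∃ n < M, fourierCoeff g n ≠ 0) →
    ∃ p C : ℝ, 0 < p ∧ ∀ σ : ℝ, C ≤ σ → mu.real {θ | ‖g θ‖ ≤ Real.exp (-σ)} ≤ C * σ ^ (-p)

/-- PIECE FIN: the case of finitely many negative frequencies (`z ^ M g` is in `H^2`): the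
distribution bound with `p = 1`.  (Jensen's inequality `HL.jensen` for truncations of `z ^ M g`, at
a point `w` of the disc where the analytic function `∑ c (n) w ^ (n + M)` does not vanish.) -/
def S_FIN : Prop :=
  ∀ g : Lp ℂ 2 mu, g ≠ 0 → (∃ M : ℤ, ∀ n < M, fourierCoeff g n = 0) →
    ∃ C : ℝ, ∀ σ : ℝ, C ≤ σ → mu.real {θ | ‖g θ‖ ≤ Real.exp (-σ)} ≤ C * σ ^ (-1 : ℝ)

/-- PIECE LOGP: from the distribution bound to integrability. -/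
def S_LOGP : Prop :=
  ∀ g : Lp ℂ 2 mu, ∀ p C : ℝ, 0 < p →
    (∀ σ : ℝ, C ≤ σ → mu.real {θ | ‖g θ‖ ≤ Real.exp (-σ)} ≤ C * σ ^ (-p)) →
    ∃ q : ℝ, 0 < q ∧ MemLp (fun θ => Real.log ‖g θ‖) (ENNReal.ofReal q) mu

/-- The final theorem (Q2). -/
def S_MAIN : Prop :=
  ∀ (n : ℕ → ℤ), (∀ k, n k < 0) →
    1 < liminf (fun k => (((n (k + 1) : ℝ) / (n k : ℝ) : ℝ) : EReal)) atTop →
    ∀ (a : ℤ → ℂ) (g₁ g₂ : Lp ℂ 2 mu),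
    HasSum (fun k : ℕ => a (n k) • fourierLp 2 (n k)) g₁ →
    HasSum (fun j : ℕ => a (j : ℤ) • fourierLp 2 (j : ℤ)) g₂ → g₁ + g₂ ≠ 0 →
    ∃ p : ℝ, 0 < p ∧
      MemLp (fun θ => Real.log ‖(g₁ + g₂ : Lp ℂ 2 mu) θ‖) (ENNReal.ofReal p) mu

end

end Pool.Agent.Run7.h104.Q2
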