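import Pool.Agent.Run7.h104.Q2.Defs

set_option autoImplicit false

/-!
# Q2 of MP_5bfbcb_an: the pieces of `S_PART2`

`S_PART2` follows from `S_WEX`, `S_HEX`, `S_SL`, `S_NS` (piece IND).
-/

namespace Pool.Agent.Run7.h104.Q2

open MeasureTheory AddCircle Complex Set Filter Topology Pool.Agent.W767.HL

noncomputable section

/-- The function to be estimated: `Re W` is (up to `exp (- D0 / 32)`) the Poisson integral of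
`χ - exp (- D0 / 32) |G|`, `χ` a cutoff of the set `|G| <= exp (- σ)`. -/
structure WData (D0 σ : ℝ) (G : ℤ →₀ ℂ) (W : ℂ → ℂ) : Prop where
  hW : Differentiable ℂ W
  W1 : ∀ z : ℂ, ‖z‖ ≤ 1 → (W z).re ≤ 1
  W2 : ∀ z : ℂ, ‖z‖ < 1 → 0 < (W z).re → PI (fun θ => ‖ev G (ze θ)‖) z ≤ Real.exp (D0 / 32)
  W3 : ∀ z : ℂ, ‖z‖ = 1 → 0 < (W z).re → ‖ev G z‖ ≤ 2 * Real.exp (-σ)
  W4 : mu.real {θ | ‖ev G (ze θ)‖ ≤ Real.exp (-σ)} ≤ (W 0).re + 2 * Real.exp (-(D0 / 32))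

/-- PIECE WEX, from `S_APX`.  Proof: `φ = χ - λ |G|`, `χ = max 0 (min 1 (2 - exp σ |G|))`,
`λ = exp (- D0 / 32)`, `ε = λ`: `φ - ε <= Re W <= φ` on the circle, and the Poisson formula. -/
def S_WEX : Prop :=
  ∀ (D0 σ : ℝ) (G : ℤ →₀ ℂ), 0 < D0 → ∫ θ, ‖ev G (ze θ)‖ ^ 2 ∂mu ≤ 1 →
    ∃ W : ℂ → ℂ, WData D0 σ G W

/-- The auxiliary entire functions `h` (`Re h` is about `exp (- D0 / 3) * PI (|G| + sum |G - f j|)`)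
and `r` (`Re r` is about `PI (sum exp (2 ^ j D0) |G - f j| ^ 2)`), `k <= j <= N`. -/
structure HRData (κ1 κ7 D0 : ℝ) (N k : ℕ) (G : ℤ →₀ ℂ) (f : ℕ → (ℤ →₀ ℂ)) (ell : ℕ → ℝ)
    (h r : ℂ → ℂ) : Prop where
  hh : Differentiable ℂ h
  hr : Differentiable ℂ r
  hh0 : ∀ z : ℂ, ‖z‖ ≤ 1 → 0 ≤ (h z).re
  hr0 : ∀ z : ℂ, ‖z‖ ≤ 1 → 0 ≤ (r z).re
  pos : ∀ i, k ≤ i → i ≤ N → ∀ z : ℂ, z ≠ 0 → ‖z‖ ≤ 1 → dep z ≤ κ1 * ell i →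
    ‖ev (f i) z‖ ≤ Real.exp (D0 / 3 + (h z).re)
  mis : ∀ i, k ≤ i → i < N → ∀ z : ℂ, z ≠ 0 → ‖z‖ < 1 → dep z ≤ κ1 * ell (i + 1) →
    (r z).re < 1 → ‖ev (f (i + 1)) z - ev (f i) z‖ ≤ 3 * Real.exp (-(2 ^ i * D0 / 3))
  hsmall : ∀ w : ℂ, w ≠ 0 → ‖w‖ < 1 → κ7 * ell k ≤ dep w →
    PI (fun θ => ‖ev G (ze θ)‖) w ≤ Real.exp (D0 / 8) → (h w).re ≤ Real.exp (-(D0 / 8))
  rsmall : ∀ w : ℂ, w ≠ 0 → ‖w‖ < 1 → κ7 * ell k ≤ dep w → (r w).re ≤ Real.exp (-(D0 / 4))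

/-- PIECE HEX, from `S_APX`.  Proof: `h` with
`φ <= Re h <= φ + exp (- D0 / 2)` on the circle, `φ = exp (- D0 / 3) (|G| + sum (k <= j <= N) |t j|)`,
`t j = G - f j`; `r` with `ψ <= Re r <= ψ + exp (- D0 / 2)`,
`ψ = sum (k <= j <= N) exp (2 ^ j D0) |t j| ^ 2`.
`pos`: by `Sys.nice`, `|ev (f i) z| <= exp (D0 / 3) (1 + Re h z)` for `|z| < 1`, then by continuity
for `|z| = 1`.  `mis`: `Sys.mism` and `(PI |t j|) ^ 2 <= PI |t j| ^ 2 < exp (- 2 ^ j D0)`.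
`hsmall`, `rsmall`: `Sys.tail` (`ell j <= ell k`), `sum exp (- 3/4 2 ^ j D0) <= 2 exp (- 3/4 D0)`,
`sum exp (- 2 ^ j D0 / 2) <= 2 exp (- D0 / 2)`. -/
def S_HEX : Prop :=
  ∃ Dm : ℝ, ∀ (κ1 κ7 A0 c0 D0 : ℝ) (N : ℕ) (G : ℤ →₀ ℂ) (f : ℕ → (ℤ →₀ ℂ)) (ell : ℕ → ℝ),
    0 < κ1 → κ1 ≤ 1 / 4 → 0 < κ7 → Dm ≤ D0 → Sys κ1 κ7 A0 c0 D0 N G f ell → ∀ k, k ≤ N →
    ∃ h r : ℂ → ℂ, HRData κ1 κ7 D0 N k G f ell h r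

/-- `Re W <= U` at depth at least `τ`. -/
def Bd (W : ℂ → ℂ) (τ U : ℝ) : Prop := ∀ z : ℂ, z ≠ 0 → ‖z‖ ≤ 1 → τ ≤ dep z → (W z).re ≤ U

/-- PIECE SL (steep lemma), from `S_HEX`, `S_POT`, `S_LINT`.
Constants: `Cd` from `S_LINT`, `2 ^ r >= 512 Cd`, `Cs = 32 Cd`.
Proof.  `Q j = q γ ^ j`, `yb = κ6 ell i`; `k` = the largest `k <= N` with `4 yb <= κ1 ell k`
(so `i + r <= k`, and `κ1 ell (k+1) < 4 yb` if `k < N`).  `h, r'` from `S_HEX` for `k` (`κ7 = 4 κ6`).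
`β = 16 γ ^ (r+1) Q k / (2 ^ k D0) + 2 / σ`.
`Ust = max 0 (sup of Re W over dep z >= 4 yb)` (at most `1`).  `S_POT` (start `k`, index `k`,
`y j = κ1 ell j`, `S = D0 / 3`, `U = Ust`; `bad` from the hypothesis on `Bd` for `j + 1`, as
`Q (j+1+r) <= β 2 ^ j D0 / 8`; `bot` from `W3` and `S.fN`) gives on the circle of depth `yb`
`Re W <= Ust / 4 + β Yc + Re r' + 20 β exp (- D0 / 8)` with `D' = 1 / β` (if `F z = 0` or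
`Yc = D'` this is `W1`).  Take the Poisson integral at `up yb zs`, `dep zs >= 4 yb`,
`Re W zs > 0` (so that `W2` applies), and `S_LINT`:
`Re W zs <= Ust / 4 + β Cd 2 ^ i D0 + exp (- D0 / 16) + exp (- D0 / 4) + 20 β exp (- D0 / 8)
<= Ust / 4 + Q i / 4`, since `(γ / 2) ^ (k - i) <= (γ / 2) ^ r`.  Hence `Ust <= Q i / 3`. -/
def S_SL : Prop :=
  ∀ κ1 A0 c0 κ6 : ℝ, 0 < κ1 → κ1 ≤ 1 / 4 → 1 ≤ A0 → 0 < c0 → c0 ≤ 1 → 0 < κ6 → κ6 ≤ 1 / 16 →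
    64 * κ6 ≤ κ1 ^ 2 → ∃ (r : ℕ) (Cs Dm : ℝ), 1 ≤ r ∧ 1 ≤ Cs ∧ ∀ γ : ℝ, 1 < γ →
    γ ^ (2 * r + 2) ≤ 2 → ∀ (D0 σ q : ℝ) (N : ℕ) (G : ℤ →₀ ℂ) (f : ℕ → (ℤ →₀ ℂ)) (ell : ℕ → ℝ)
    (W : ℂ → ℂ), Dm ≤ D0 → 2 ≤ σ → 0 < q → Sys κ1 (4 * κ6) A0 c0 D0 N G f ell →
    WData D0 σ G W → ∀ i, i + r ≤ N → 4 * (κ6 * ell i) ≤ κ1 * ell (i + r) →
    Real.exp (-(D0 / 32)) ≤ q * γ ^ i → Cs * (2 ^ i * D0) ≤ σ * (q * γ ^ i) →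
    (∀ j, i < j → j ≤ N → Bd W (κ1 / 4 * ell j) (q * γ ^ (j + r))) →
    Bd W (4 * (κ6 * ell i)) (q * γ ^ i / 2)

/-- PIECE NS (non steep step), from `S_HEX`, `S_POT` (and the field `ri` of `Sys`).
Constants: `ε = c0 / 16`, `κ6 = ε κ1 ^ 2 / 4` (so `64 κ6 <= κ1 ^ 2`), `s` with
`64 (1 + A0) / 2 ^ s <= c0 / 8`, `Cs = 64 (1 + A0) / c0`.
Proof.  `Q j = q γ ^ j`, `k = i + s`, `τ = ε κ1 ell k`, `k'` the largest `k' <= N` with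
`4 τ <= κ1 ell k'`  (`k <= k' < k + r`, `κ1 ell (k'+1) < 4 τ`), and `ell (k + r) <= τ`.
`h, r'` from `S_HEX` for `k` (`κ7 = 4 κ6`), `β = 16 γ ^ (r+1) Q k / (2 ^ k D0) + 2 / σ`.
Let `dep w >= ell i`, `Re W w > 0`.  On the circle of depth `τ`, `E = {|f k'| <= exp (- A0 2^i D0)}`:
on `E`, `Re W <= Q (k + r)` (`Bd` at depth `ell (k+r)`); off `E`, by `S_POT` (start `k`, index `k'`,
`U = Q (k + r)` by `Bd W (κ1 / 4 ell k)`),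
`Re W <= ε Q (k+r) + β (D0 / 3 + Re h + A0 2 ^ i D0) + Re r' + 20 β exp (- D0 / 8)`.
Poisson integral at `up τ w`, and `Sys.ri` for `i, k'`, `y = τ`:
`Re W w <= Q (k+r) (1 - c0 + ε) + β (1 + A0) 2 ^ i D0 + β exp (- D0 / 8) + exp (- D0 / 4)
+ 20 β exp (- D0 / 8) <= Q i`. -/
def S_NS : Prop :=
  ∀ κ1 A0 c0 : ℝ, 0 < κ1 → κ1 ≤ 1 / 4 → 1 ≤ A0 → 0 < c0 → c0 ≤ 1 →
    ∃ (κ6 Cs Dm : ℝ) (s : ℕ), 0 < κ6 ∧ κ6 ≤ 1 / 16 ∧ 64 * κ6 ≤ κ1 ^ 2 ∧ 1 ≤ s ∧ 1 ≤ Cs ∧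
    ∀ r : ℕ, 1 ≤ r → ∀ γ : ℝ, 1 < γ → γ ^ (s + r + 1) ≤ 1 + c0 / 8 →
    ∀ (D0 σ q : ℝ) (N : ℕ) (G : ℤ →₀ ℂ) (f : ℕ → (ℤ →₀ ℂ)) (ell : ℕ → ℝ)
    (W : ℂ → ℂ), Dm ≤ D0 → 2 ≤ σ → 0 < q → Sys κ1 (4 * κ6) A0 c0 D0 N G f ell →
    WData D0 σ G W → ∀ i, i + s + r ≤ N → κ1 * ell (i + s + r) < 4 * (κ6 * ell (i + s)) →
    Real.exp (-(D0 / 32)) ≤ q * γ ^ i → Cs * (2 ^ i * D0) ≤ σ * (q * γ ^ i) →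
    (∀ j, i < j → j ≤ N → Bd W (κ1 / 4 * ell j) (q * γ ^ (j + r))) →
    (∀ j, i < j → j ≤ N → Bd W (ell j) (q * γ ^ j)) →
    Bd W (ell i) (q * γ ^ i)

/-- PIECE IND: `S_WEX → S_SL → S_NS → S_PART2`. -/
def S_IND : Prop := S_WEX → S_SL → S_NS → S_PART2

end

end Pool.Agent.Run7.h104.Q2
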