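import Pool.Agent.Run7.h104.Q2.IND
import Pool.Agent.Run7.h344.Q2.TAIL
import Pool.Agent.Run7.h416.Q2.WEX
import Pool.Agent.Run7.h437.Q2.IM
import Pool.Agent.Run7.h437.Q2.LINT
import Pool.Agent.Run7.h617.Q2.MAIN
import Pool.Agent.Run7.h617.Q2.PART1
import Pool.Agent.Run7.h669.Q2.NICE
import Pool.Agent.Run7.h688.Q2.POT
import Pool.Agent.Run7.h688.Q2.LOC
import Pool.Agent.Run7.h834.Q2.HEX
import Pool.Agent.Run7.h862.Q2.RI0
import Pool.Agent.Run7.h862.Q2.RI1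
import Pool.Agent.Run7.h888.Q2.APX
import Pool.Agent.Run7.h888.Q2.CHAIN
import Pool.Agent.Run7.h888.Q2.SL
import Pool.Agent.Run7.h888.Q2.NS
import Pool.Agent.Run7.h957.Q2.FIN
import Pool.Agent.Run7.h957.Q2.LIM
import Pool.Agent.Run7.h957.Q2.LOGP
import Pool.Agent.Run7.h957.Q2.UNIF

/-!
Final assembly of the project on question 2 of MP_5bfbcb_an: every piece is put together and the
main theorem `S_MAIN` comes out with no hypothesis left.
-/

namespace Pool.Agent.Run7.h104.Q2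

open Pool.Agent.Run7

theorem part1 : S_PART1 :=
  h617.Q2.prove_PART1 h669.Q2.prove_NICE h344.Q2.prove_TAIL
    (h862.Q2.prove_RI1 h862.Q2.prove_RI0 h669.Q2.prove_NICE h344.Q2.prove_TAIL)

theorem part2 : S_PART2 :=
  prove_IND (h416.Q2.t_WEX h888.Q2.t_APX)
    (h888.Q2.t_SL (h834.Q2.t_HEX h888.Q2.t_APX) (h688.Q2.prove_POT h437.Q2.prove_IM)
      (h437.Q2.prove_LINT
        (h888.Q2.t_CHAIN (h688.Q2L.prove_LOC h437.Q2.prove_IM h888.Q2.t_APX))))
    (h888.Q2.t_NS (h834.Q2.t_HEX h888.Q2.t_APX) (h688.Q2.prove_POT h437.Q2.prove_IM))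

theorem final : S_MAIN :=
  h617.Q2.prove_MAIN (h957.Q2.prove_LIM (h957.Q2.prove_UNIF part1 part2)) h957.Q2.prove_FIN
    h957.Q2.prove_LOGP

end Pool.Agent.Run7.h104.Q2
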