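import Pool.Agent.Run7.h104.Q2.Defs2

set_option autoImplicit false

/-!
# Q2 of MP_5bfbcb_an: the induction over the levels (piece IND)
-/

namespace Pool.Agent.Run7.h104.Q2

open MeasureTheory AddCircle Complex Set Filter Topology Pool.Agent.W767.HL

noncomputable section

lemma Bd.mono {W : ℂ → ℂ} {τ τ' U U' : ℝ} (h : Bd W τ U) (h1 : τ ≤ τ') (h2 : U ≤ U') :
    Bd W τ' U' := fun z hz hz1 hd => (h z hz hz1 (h1.trans hd)).trans h2

lemma Bd.at_zero {W : ℂ → ℂ} (hW : Differentiable ℂ W) {τ U : ℝ} (h : Bd W τ U) :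
    (W 0).re ≤ U := by
  have hc : Tendsto (fun z => (W z).re) (𝓝[≠] 0) (𝓝 (W 0).re) :=
    ((Complex.continuous_re.comp hW.continuous).tendsto 0).mono_left nhdsWithin_le_nhds
  refine le_of_tendsto hc ?_
  have h1 : ∀ᶠ z : ℂ in 𝓝 0, ‖z‖ < min 1 (Real.exp (-τ)) := by
    have : Tendsto (fun z : ℂ => ‖z‖) (𝓝 0) (𝓝 0) := by
      simpa using (continuous_norm (E := ℂ)).tendsto 0
    exact this.eventually_lt_const (lt_min one_pos (Real.exp_pos _))
  filter_upwards [nhdsWithin_le_nhds h1, self_mem_nhdsWithin] with z hz hz0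
  have hz0' : 0 < ‖z‖ := norm_pos_iff.mpr hz0
  refine h z hz0 (hz.le.trans (min_le_left _ _)) ?_
  have h2 : Real.log ‖z‖ ≤ -τ := by
    have := Real.log_le_log hz0' (hz.le.trans (min_le_right _ _))
    rwa [Real.log_exp] at this
  unfold dep
  linarith

/-- The induction. -/
lemma ind_core {κ1 κ6 A0 c0 D0 σ q γ Cs : ℝ} {r s n0 N : ℕ} {G : ℤ →₀ ℂ} {f : ℕ → (ℤ →₀ ℂ)}
    {ell : ℕ → ℝ} {W : ℂ → ℂ} (hκ : 0 < κ1) (hκ' : κ1 ≤ 1 / 4) (hκ6 : 0 < κ6)
    (hκ6' : κ6 ≤ 1 / 16) (hκ66 : 64 * κ6 ≤ κ1 ^ 2) (hr : 1 ≤ r) (hs : 1 ≤ s) (hγ : 1 < γ)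
    (hγs : γ ^ s ≤ 2) (hq : 0 < q) (hqn : 1 ≤ q * γ ^ n0)
    (hsys : Sys κ1 (4 * κ6) A0 c0 D0 N G f ell) (hW : WData D0 σ G W)
    (hN : n0 + s + r + s + r ≤ N)
    (hexp : ∀ i, Real.exp (-(D0 / 32)) ≤ q * γ ^ i)
    (hC : ∀ i, i ≤ n0 + s → Cs * (2 ^ i * D0) ≤ σ * (q * γ ^ i))
    (SL : ∀ i, i + r ≤ N → 4 * (κ6 * ell i) ≤ κ1 * ell (i + r) →
      Real.exp (-(D0 / 32)) ≤ q * γ ^ i → Cs * (2 ^ i * D0) ≤ σ * (q * γ ^ i) →
      (∀ j, i < j → j ≤ N → Bd W (κ1 / 4 * ell j) (q * γ ^ (j + r))) →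
      Bd W (4 * (κ6 * ell i)) (q * γ ^ i / 2))
    (NS : ∀ i, i + s + r ≤ N → κ1 * ell (i + s + r) < 4 * (κ6 * ell (i + s)) →
      Real.exp (-(D0 / 32)) ≤ q * γ ^ i → Cs * (2 ^ i * D0) ≤ σ * (q * γ ^ i) →
      (∀ j, i < j → j ≤ N → Bd W (κ1 / 4 * ell j) (q * γ ^ (j + r))) →
      (∀ j, i < j → j ≤ N → Bd W (ell j) (q * γ ^ j)) →
      Bd W (ell i) (q * γ ^ i)) :
    ∀ d i, n0 ≤ i + d → i ≤ N →
      Bd W (κ1 / 4 * ell i) (q * γ ^ (i + r)) ∧ Bd W (ell i) (q * γ ^ i) := by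
  have hγ0 : 0 < γ := by linarith
  have hmono : ∀ {a b : ℕ}, a ≤ b → q * γ ^ a ≤ q * γ ^ b := fun {a b} hab =>
    mul_le_mul_of_nonneg_left (pow_le_pow_right₀ hγ.le hab) hq.le
  have triv : ∀ i, n0 ≤ i → Bd W (κ1 / 4 * ell i) (q * γ ^ (i + r)) ∧
      Bd W (ell i) (q * γ ^ i) := by
    intro i hi
    have h1 : 1 ≤ q * γ ^ i := hqn.trans (hmono hi)
    exact ⟨fun z _ hz1 _ => (hW.W1 z hz1).trans (h1.trans (hmono (Nat.le_add_right i r))),
      fun z _ hz1 _ => (hW.W1 z hz1).trans h1⟩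
  intro d
  induction d with
  | zero => exact fun i hi _ => triv i (by simpa using hi)
  | succ d ih =>
      intro i hi hiN
      by_cases hin : n0 ≤ i
      · exact triv i hin
      push Not at hin
      have H1 : ∀ j, i < j → j ≤ N → Bd W (κ1 / 4 * ell j) (q * γ ^ (j + r)) :=
        fun j hj hjN => (ih j (by omega) hjN).1
      have H2 : ∀ j, i < j → j ≤ N → Bd W (ell j) (q * γ ^ j) :=
        fun j hj hjN => (ih j (by omega) hjN).2
      have hei := hsys.ell_pos i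
      have hκ64 : 4 * κ6 ≤ κ1 / 4 := by nlinarith
      have hκ63 : 4 * κ6 ≤ κ1 * (κ1 / 4) := by nlinarith
      constructor
      · by_cases hst : 4 * (κ6 * ell i) ≤ κ1 * ell (i + r)
        · refine (SL i (by omega) hst (hexp i) (hC i (by omega)) H1).mono ?_ ?_
          · have h7 := mul_le_mul_of_nonneg_right hκ64 hei.le
            linarith
          · have := hmono (Nat.le_add_right i r)
            have h3 : 0 < q * γ ^ i := by positivity
            linarith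
        · push Not at hst
          refine (H2 (i + r) (by omega) (by omega)).mono ?_ le_rfl
          have h4 : κ1 * ell (i + r) ≤ κ1 * (κ1 / 4 * ell i) := by
            have h7 := mul_le_mul_of_nonneg_right hκ63 hei.le
            linarith
          exact le_of_mul_le_mul_left h4 hκ
      · by_cases hst : 4 * (κ6 * ell (i + s)) ≤ κ1 * ell (i + s + r)
        · refine (SL (i + s) (by omega) hst (hexp _) (hC _ (by omega)) fun j hj hjN =>
            H1 j (by omega) hjN).mono ?_ ?_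
          · have h5 := hsys.ell_anti (Nat.le_add_right i s)
            have h6 := hsys.ell_pos (i + s)
            nlinarith
          · rw [pow_add]
            have h3 : 0 < q * γ ^ i := by positivity
            nlinarith
        · push Not at hst
          exact NS i (by omega) hst (hexp i) (hC i (by omega)) H1 H2

theorem prove_IND : S_IND := by
  intro hWEX hSL hNS κ1 A0 c0 hκ hκ' hA hc hc'
  obtain ⟨κ6, CsN, DmN, s, hκ6, hκ6', hκ66, hs, hCsN, HNS⟩ := hNS κ1 A0 c0 hκ hκ' hA hc hc'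
  obtain ⟨r, CsS, DmS, hr, hCsS, HSL⟩ := hSL κ1 A0 c0 κ6 hκ hκ' hA hc hc' hκ6 hκ6' hκ66
  set E : ℕ := 2 * r + 2 + s + r + 1 with hE
  set γ : ℝ := (1 + c0 / 8) ^ ((E : ℝ)⁻¹) with hγdef
  have hE0 : E ≠ 0 := by omega
  have hγE : γ ^ E = 1 + c0 / 8 := by
    rw [hγdef]
    exact Real.rpow_inv_natCast_pow (by positivity) hE0
  have hγ : 1 < γ := by
    rw [hγdef]
    exact Real.one_lt_rpow (by linarith) (by positivity)
  have hpow : ∀ a : ℕ, a ≤ E → γ ^ a ≤ 1 + c0 / 8 := fun a ha => by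
    rw [← hγE]
    exact pow_le_pow_right₀ hγ.le ha
  have hγ0 : 0 < γ := by linarith
  have hγ2 : γ ≤ 2 := by
    have := hpow 1 (by omega)
    rw [pow_one] at this
    linarith
  set Cs : ℝ := max CsN CsS with hCs
  have hCs1 : 1 ≤ Cs := hCsN.trans (le_max_left _ _)
  set T : ℝ := Cs * 2 ^ s with hT
  have hT1 : 1 ≤ T := by
    have : (1 : ℝ) ≤ 2 ^ s := one_le_pow₀ (by norm_num)
    nlinarith
  set p : ℝ := Real.log γ / Real.log 2 with hp
  have hl2 : 0 < Real.log 2 := Real.log_pos (by norm_num)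
  have hp0 : 0 < p := div_pos (Real.log_pos hγ) hl2
  set C : ℝ := 2048 + |DmN| + |DmS| + T + γ * T ^ p + 2 * (s + r) with hCdef
  have hTp : 0 < T ^ p := Real.rpow_pos_of_pos (by linarith) p
  have hgT : 0 < γ * T ^ p := mul_pos hγ0 hTp
  have hsr : (0 : ℝ) ≤ 2 * ((s : ℝ) + r) := by positivity
  have hC1 : 1 ≤ C := by
    have h1 := abs_nonneg DmN
    have h2 := abs_nonneg DmS
    linarith
  refine ⟨4 * κ6, p, C, by positivity, hp0, hC1, ?_⟩
  intro D0 σ hD hσ1 hσ2 N G f ell hN hsys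
  have habs1 := abs_nonneg DmN
  have habs2 := abs_nonneg DmS
  have hD2048 : 2048 ≤ D0 := by linarith
  have hDN : DmN ≤ D0 := (le_abs_self DmN).trans (by linarith)
  have hDS : DmS ≤ D0 := (le_abs_self DmS).trans (by linarith)
  have hD0 : 0 < D0 := by linarith
  have hTD : T * D0 ≤ σ := by
    refine le_trans ?_ hσ1
    exact mul_le_mul_of_nonneg_right (by linarith) hD0.le
  have hσ0 : 0 < σ := lt_of_lt_of_le (by positivity) hTD
  have hσ2' : 2 ≤ σ := by nlinarith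
  obtain ⟨W, hW⟩ := hWEX D0 σ G hD0 hsys.norm
  set X : ℝ := σ / (T * D0) with hX
  have hX1 : 1 ≤ X := by
    rw [hX, le_div_iff₀ (by positivity)]
    linarith
  obtain ⟨n0, hn1, hn2⟩ := exists_nat_pow_near hX1 (show (1 : ℝ) < 2 by norm_num)
  have hn1' : 2 ^ n0 * (T * D0) ≤ σ := by
    rwa [hX, le_div_iff₀ (by positivity)] at hn1
  set q : ℝ := (γ ^ n0)⁻¹ with hq
  have hq0 : 0 < q := by positivity
  have hqn : 1 ≤ q * γ ^ n0 := by
    rw [hq, inv_mul_cancel₀ (by positivity)]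
  have hγn2 : γ ^ n0 ≤ 2 ^ n0 := pow_le_pow_left₀ hγ0.le hγ2 n0
  have hexp : ∀ i, Real.exp (-(D0 / 32)) ≤ q * γ ^ i := by
    intro i
    have h1 : q ≤ q * γ ^ i := le_mul_of_one_le_right hq0.le (one_le_pow₀ hγ.le)
    refine le_trans ?_ h1
    rw [hq, Real.exp_neg]
    refine inv_anti₀ (by positivity) ?_
    have h2 : γ ^ n0 ≤ D0 := by
      refine hγn2.trans ?_
      have h3 : 2 ^ n0 * D0 ≤ D0 * D0 := by
        have h4 : (2 : ℝ) ^ n0 * D0 ≤ 2 ^ n0 * (T * D0) := by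
          refine mul_le_mul_of_nonneg_left ?_ (by positivity)
          nlinarith
        nlinarith
      exact le_of_mul_le_mul_right h3 hD0
    refine h2.trans ?_
    have h5 := Real.quadratic_le_exp_of_nonneg (show 0 ≤ D0 / 32 by positivity)
    nlinarith
  have hC : ∀ i, i ≤ n0 + s → Cs * (2 ^ i * D0) ≤ σ * (q * γ ^ i) := by
    intro i hi
    have h1 : (2 : ℝ) ^ i * γ ^ n0 ≤ 2 ^ (n0 + s) * γ ^ i := by
      rcases le_total i n0 with h | h
      · obtain ⟨e, rfl⟩ := Nat.exists_eq_add_of_le h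
        have h2 : γ ^ e ≤ 2 ^ e := pow_le_pow_left₀ hγ0.le hγ2 e
        have h3 : (1 : ℝ) ≤ 2 ^ s := one_le_pow₀ (by norm_num)
        calc (2 : ℝ) ^ i * γ ^ (i + e) = (2 ^ i * γ ^ i) * γ ^ e := by rw [pow_add]; ring
          _ ≤ (2 ^ i * γ ^ i) * (2 ^ e * 2 ^ s) := by
              refine mul_le_mul_of_nonneg_left ?_ (by positivity)
              nlinarith [pow_pos (show (0 : ℝ) < 2 by norm_num) e]
          _ = 2 ^ (i + e + s) * γ ^ i := by rw [pow_add, pow_add]; ring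
      · exact mul_le_mul (pow_le_pow_right₀ (by norm_num) hi) (pow_le_pow_right₀ hγ.le h)
          (by positivity) (by positivity)
    have h4 : Cs * (2 ^ i * D0) * γ ^ n0 ≤ σ * γ ^ i := by
      calc Cs * (2 ^ i * D0) * γ ^ n0 = (2 ^ i * γ ^ n0) * (Cs * D0) := by ring
        _ ≤ (2 ^ (n0 + s) * γ ^ i) * (Cs * D0) :=
            mul_le_mul_of_nonneg_right h1 (by positivity)
        _ = (2 ^ n0 * (T * D0)) * γ ^ i := by rw [hT, pow_add]; ring
        _ ≤ σ * γ ^ i := mul_le_mul_of_nonneg_right hn1' (by positivity)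
    have h5 : σ * (q * γ ^ i) = σ * γ ^ i / γ ^ n0 := by
      rw [hq]
      field_simp
    rw [h5, le_div_iff₀ (by positivity)]
    exact h4
  have hNn : n0 + s + r + s + r ≤ N := by
    have h1 : (n0 : ℝ) ≤ σ := by
      have h2 : (n0 : ℝ) ≤ 2 ^ n0 := by exact_mod_cast Nat.lt_two_pow_self.le
      have h3 : (2 : ℝ) ^ n0 ≤ 2 ^ n0 * (T * D0) := by
        refine le_mul_of_one_le_right (by positivity) ?_
        nlinarith
      linarith
    have h4 : ((n0 + s + r + s + r : ℕ) : ℝ) ≤ N := by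
      push_cast
      have : (s : ℝ) + r + s + r ≤ C := by
        have h5 := hgT
        have h6 := hT1
        linarith
      linarith
    exact_mod_cast h4
  have hγs : γ ^ s ≤ 2 := (hpow s (by omega)).trans (by linarith)
  have key := ind_core (Cs := Cs) hκ hκ' hκ6 hκ6' hκ66 hr hs hγ hγs hq0 hqn hsys hW hNn hexp hC
    (fun i hi hst he hCi hB => HSL γ hγ ((hpow _ (by omega)).trans (by linarith)) D0 σ q N G f ell W
      hDS hσ2' hq0 hsys hW i hi hst he (le_trans (mul_le_mul_of_nonneg_right (le_max_right _ _)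
        (by positivity)) hCi) hB)
    (fun i hi hst he hCi hB hI => HNS r hr γ hγ (hpow _ (by omega)) D0 σ q N G f ell W hDN hσ2'
      hq0 hsys hW i hi hst he (le_trans (mul_le_mul_of_nonneg_right (le_max_left _ _)
        (by positivity)) hCi) hB hI) n0 0 (by omega) (by omega)
  have hW0 : (W 0).re ≤ q := by
    have := key.2.at_zero hW.hW
    simpa using this
  have hW4 := hW.W4
  have hexp2 : 2 * Real.exp (-(D0 / 32)) ≤ Real.exp (-(D0 / 64)) := by
    have h1 : Real.exp (-(D0 / 32)) = Real.exp (-(D0 / 64)) * Real.exp (-(D0 / 64)) := by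
      rw [← Real.exp_add]
      congr 1
      ring
    have h2 : Real.exp (-(D0 / 64)) ≤ 1 / 2 := by
      have h3 : Real.exp (-(D0 / 64)) ≤ Real.exp (-1) := Real.exp_le_exp.mpr (by linarith)
      have h4 : Real.exp (-1) ≤ 1 / 2 := by
        rw [Real.exp_neg]
        have := Real.add_one_le_exp (1 : ℝ)
        rw [one_div]
        exact inv_anti₀ (by norm_num) (by linarith)
      linarith
    rw [h1]
    nlinarith [Real.exp_pos (-(D0 / 64))]
  have hqle : q ≤ C * (D0 / σ) ^ p := by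
    have h2p : (2 : ℝ) ^ p = γ := by
      rw [hp, Real.rpow_def_of_pos (by norm_num), mul_div_cancel₀ _ hl2.ne', Real.exp_log hγ0]
    have h1 : X ^ p ≤ γ ^ (n0 + 1) := by
      calc X ^ p ≤ ((2 : ℝ) ^ (n0 + 1)) ^ p :=
            Real.rpow_le_rpow (by positivity) hn2.le hp0.le
        _ = ((2 : ℝ) ^ p) ^ (n0 + 1) := by
            rw [← Real.rpow_natCast, ← Real.rpow_natCast, ← Real.rpow_mul (by norm_num),
              ← Real.rpow_mul (by norm_num), mul_comm]
        _ = γ ^ (n0 + 1) := by rw [h2p]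
    have hXp : 0 < X ^ p := Real.rpow_pos_of_pos (by linarith) p
    have h3 : q ≤ γ * (X ^ p)⁻¹ := by
      rw [hq, ← div_eq_mul_inv, le_div_iff₀ hXp, inv_mul_le_iff₀ (by positivity)]
      calc X ^ p ≤ γ ^ (n0 + 1) := h1
        _ = γ ^ n0 * γ := pow_succ _ _
    have h4 : (X ^ p)⁻¹ = T ^ p * (D0 / σ) ^ p := by
      rw [← Real.inv_rpow (by positivity), ← Real.mul_rpow (by linarith) (by positivity)]
      congr 1
      rw [hX]
      field_simp
    rw [h4, ← mul_assoc] at h3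
    refine h3.trans (mul_le_mul_of_nonneg_right ?_ (by positivity))
    linarith
  linarith

end

end Pool.Agent.Run7.h104.Q2
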